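import Pool.Agent.X323.BT.Final

/-!
# The Bridge Theorem for monoid actions on compact abelian groups

For every left action `γ` of a monoid `S` on a compact Hausdorff abelian group `K` by continuous
endomorphisms and every left Folner net of `S`, the topological entropy of `γ` equals the algebraic
entropy of the dual right action of `S` on the character group of `K`.
-/

set_option autoImplicit false

namespace Pool.Agent.Results.MP_699bc8_an.BridgeTheorem

open Pool.Agent.X323.BT

/-- Bridge Theorem. -/
theorem result {S K I : Type*} [Monoid S] [CommGroup K] [TopologicalSpace K] [IsTopologicalGroup K]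
    [CompactSpace K] [T2Space K] (γ : EndAction S K)
    [Preorder I] [IsDirected I (· ≤ ·)] [Nonempty I] (F : I → Finset S) (hF : IsLeftFolnerNet F) :
    hTopSup γ F = hAlgSup γ F ∧ hTopInf γ F = hAlgInf γ F ∧
      ∀ h h' : EReal, HasTopEntropy γ F h → HasAlgEntropy γ F h' → h = h' :=
  ⟨bridge_sup γ F hF.nonempty, bridge_inf γ F hF.nonempty,
    fun _ _ ht ha => bridge_has γ F hF.nonempty ht ha⟩

end Pool.Agent.Results.MP_699bc8_an.BridgeTheorem
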